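import Mathlib
import Pool.Agent.Q104.Spec

/-!
# A graph edge that is a diagonal of the second eigenpolytope
-/

set_option autoImplicit false

namespace Pool.Agent.Results.MP_0d5a8e_co.SquareDiagonal

open Matrix Finset

section defs

variable {V : Type} [Fintype V] [DecidableEq V]

/-- the eigenspace of `A` for `θ` -/
noncomputable def Eig (A : Matrix V V ℝ) (θ : ℝ) : Submodule ℝ (V → ℝ) :=
  LinearMap.ker (Matrix.toLin' A - θ • LinearMap.id)

/-- the set of eigenvalues -/
def eigs (A : Matrix V V ℝ) : Set ℝ := {t | ∃ x : V → ℝ, x ≠ 0 ∧ A *ᵥ x = t • x}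

/-- `θ` is the second-largest distinct eigenvalue of `A` -/
def IsSecond (A : Matrix V V ℝ) (θ : ℝ) : Prop :=
  θ ∈ eigs A ∧ ∃ θ₁ ∈ eigs A, θ < θ₁ ∧ ∀ μ ∈ eigs A, μ = θ₁ ∨ μ ≤ θ

/-- the `i`-th row `v_i` of the matrix whose columns are the basis vectors of the eigenspace -/
noncomputable def row {A : Matrix V V ℝ} {θ : ℝ} {d : ℕ} (u : Module.Basis (Fin d) ℝ (Eig A θ)) (i : V) :
    Fin d → ℝ := fun k => (u k : V → ℝ) i

/-- the eigenpolytope: the convex hull of the rows -/
noncomputable def eigenpolytope {A : Matrix V V ℝ} {θ : ℝ} {d : ℕ} (u : Module.Basis (Fin d) ℝ (Eig A θ)) :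
    Set (Fin d → ℝ) := convexHull ℝ (Set.range (row u))

end defs

/-- a point exposed by a linear functional among the spanning points is an extreme point -/
lemma extreme_of_functional {E ι : Type*} [AddCommGroup E] [Module ℝ E] (v : ι → E) (i₀ i₁ : ι)
    (h01 : i₁ ≠ i₀) (f : E →ₗ[ℝ] ℝ) (c : ℝ) (hv : ∀ i, i ≠ i₀ → f (v i) ≤ c)
    (hc : c < f (v i₀)) : v i₀ ∈ (convexHull ℝ (Set.range v)).extremePoints ℝ := by
  have hr : Set.range v = insert (v i₀) (v '' {i | i ≠ i₀}) := by
    ext y
    constructor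
    · rintro ⟨i, rfl⟩
      by_cases h : i = i₀
      · exact Or.inl (by rw [h])
      · exact Or.inr ⟨i, h, rfl⟩
    · rintro (h | ⟨i, -, h⟩)
      · exact ⟨i₀, h.symm⟩
      · exact ⟨i, h⟩
  have hne : (v '' {i | i ≠ i₀}).Nonempty := ⟨v i₁, i₁, h01, rfl⟩
  have key : ∀ y ∈ convexHull ℝ (Set.range v), f y ≤ f (v i₀) ∧ (f y = f (v i₀) → y = v i₀) := by
    intro y hy
    rw [hr, convexHull_insert hne, mem_convexJoin] at hy
    obtain ⟨p, hp, z, hz, hy⟩ := hy
    rw [Set.mem_singleton_iff] at hp
    subst hp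
    have hz' : f z ≤ c := by
      have h1 : convexHull ℝ (v '' {i | i ≠ i₀}) ⊆ {z | f z ≤ c} := by
        refine convexHull_min ?_ (convex_halfSpace_le f.isLinear c)
        rintro _ ⟨i, hi, rfl⟩
        exact hv i hi
      exact h1 hz
    obtain ⟨a, b, ha, hb, hab, rfl⟩ := hy
    rw [map_add, map_smul, map_smul, smul_eq_mul, smul_eq_mul]
    have ha' : a = 1 - b := by linarith
    constructor
    · rw [ha']; nlinarith
    · intro h
      have hb0 : b = 0 := by
        rw [ha'] at h
        by_contra hne'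
        have : 0 < b := lt_of_le_of_ne hb (Ne.symm hne')
        nlinarith
      rw [ha', hb0]
      simp
  refine ⟨subset_convexHull ℝ _ ⟨i₀, rfl⟩, ?_⟩
  intro x₁ h₁ x₂ h₂ hx
  obtain ⟨a, b, ha, hb, hab, h⟩ := hx
  have k1 := key x₁ h₁
  have k2 := key x₂ h₂
  apply k1.2
  have h3 := congrArg f h
  rw [map_add, map_smul, map_smul, smul_eq_mul, smul_eq_mul] at h3
  have hb' : b = 1 - a := by linarith
  rw [hb'] at h3
  have h4 : a * (f (v i₀) - f x₁) + (1 - a) * (f (v i₀) - f x₂) = 0 := by linarith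
  have h5 : 0 ≤ a * (f (v i₀) - f x₁) := mul_nonneg ha.le (by linarith [k1.1])
  have h6 : 0 ≤ (1 - a) * (f (v i₀) - f x₂) := mul_nonneg (by linarith) (by linarith [k2.1])
  have h7 : a * (f (v i₀) - f x₁) = 0 := by linarith
  rcases mul_eq_zero.mp h7 with h8 | h8
  · linarith
  · linarith

/-! ### the graph -/

/-- the vertices: `(s, none)` is `a_s` and `(s, some i)` is `b_{s,i}`, for `s` modulo `4` and six
values of `i` -/
abbrev Vt : Type := Fin 4 × Option (Fin 6)

/-- `a_s` is adjacent to `a_{s+2}` and to all `b_{s,i}`, and `b_{s,i}` to all `b_{s±1,j}` -/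
def G : SimpleGraph Vt where
  Adj x y := match x, y with
    | (s, none), (t, none) => t = s + 2
    | (s, none), (t, some _) => s = t
    | (s, some _), (t, none) => s = t
    | (s, some _), (t, some _) => t = s + 1 ∨ s = t + 1
  symm := ⟨by
    rintro ⟨s, x⟩ ⟨t, y⟩
    rcases x with _ | i <;> rcases y with _ | j
    · revert s t; decide
    · exact fun h => h.symm
    · exact fun h => h.symm
    · exact fun h => h.symm⟩
  loopless := ⟨by
    rintro ⟨s, x⟩
    rcases x with _ | i
    · have h : ∀ s : Fin 4, ¬ (s = s + 2) := by decide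
      exact h s
    · have h : ∀ s : Fin 4, ¬ (s = s + 1 ∨ s = s + 1) := by decide
      exact h s⟩

instance : DecidableRel G.Adj := by
  rintro ⟨s, x⟩ ⟨t, y⟩
  rcases x with _ | i <;> rcases y with _ | j <;> unfold G <;> simp only <;> infer_instance

lemma mulVec_a (x : Vt → ℝ) (s : Fin 4) : (G.adjMatrix ℝ *ᵥ x) (s, none)
    = x (s + 2, none) + ∑ i, x (s, some i) := by
  simp only [Matrix.mulVec, dotProduct, SimpleGraph.adjMatrix_apply, Fintype.sum_prod_type,
    Fintype.sum_option, Finset.sum_add_distrib]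
  congr 1
  · have : ∀ t : Fin 4, (if G.Adj (s, none) (t, none) then (1 : ℝ) else 0) * x (t, none)
        = if t = s + 2 then x (t, none) else 0 := by
      intro t
      by_cases h : t = s + 2
      · rw [if_pos (show G.Adj (s, none) (t, none) from h), if_pos h, one_mul]
      · rw [if_neg (show ¬ G.Adj (s, none) (t, none) from h), if_neg h, zero_mul]
    simp only [this, Finset.sum_ite_eq', Finset.mem_univ, if_true]
  · have : ∀ t : Fin 4, ∑ i, (if G.Adj (s, none) (t, some i) then (1 : ℝ) else 0) * x (t, some i)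
        = if s = t then ∑ i, x (t, some i) else 0 := by
      intro t
      by_cases h : s = t
      · rw [if_pos h]
        refine Finset.sum_congr rfl fun i _ => ?_
        rw [if_pos (show G.Adj (s, none) (t, some i) from h), one_mul]
      · rw [if_neg h]
        refine Finset.sum_eq_zero fun i _ => ?_
        rw [if_neg (show ¬ G.Adj (s, none) (t, some i) from h), zero_mul]
    simp only [this, Finset.sum_ite_eq, Finset.mem_univ, if_true]

lemma mulVec_b (x : Vt → ℝ) (s : Fin 4) (i : Fin 6) : (G.adjMatrix ℝ *ᵥ x) (s, some i)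
    = x (s, none) + (∑ j, x (s + 1, some j) + ∑ j, x (s + 3, some j)) := by
  simp only [Matrix.mulVec, dotProduct, SimpleGraph.adjMatrix_apply, Fintype.sum_prod_type,
    Fintype.sum_option, Finset.sum_add_distrib]
  congr 1
  · have : ∀ t : Fin 4, (if G.Adj (s, some i) (t, none) then (1 : ℝ) else 0) * x (t, none)
        = if s = t then x (t, none) else 0 := by
      intro t
      by_cases h : s = t
      · rw [if_pos (show G.Adj (s, some i) (t, none) from h), if_pos h, one_mul]
      · rw [if_neg (show ¬ G.Adj (s, some i) (t, none) from h), if_neg h, zero_mul]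
    simp only [this, Finset.sum_ite_eq, Finset.mem_univ, if_true]
  · have : ∀ t : Fin 4, ∑ j, (if G.Adj (s, some i) (t, some j) then (1 : ℝ) else 0) * x (t, some j)
        = (if t = s + 1 then ∑ j, x (t, some j) else 0)
          + (if t = s + 3 then ∑ j, x (t, some j) else 0) := by
      intro t
      have h3 : s = t + 1 ↔ t = s + 3 := by revert s t; decide
      have h13 : ¬ (t = s + 1 ∧ t = s + 3) := by revert s t; decide
      by_cases h1 : t = s + 1
      · have h2 : t ≠ s + 3 := fun h => h13 ⟨h1, h⟩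
        rw [if_pos h1, if_neg h2, add_zero]
        refine Finset.sum_congr rfl fun j _ => ?_
        rw [if_pos (show G.Adj (s, some i) (t, some j) from Or.inl h1), one_mul]
      · by_cases h2 : t = s + 3
        · rw [if_neg h1, if_pos h2, zero_add]
          refine Finset.sum_congr rfl fun j _ => ?_
          rw [if_pos (show G.Adj (s, some i) (t, some j) from Or.inr (h3.mpr h2)), one_mul]
        · rw [if_neg h1, if_neg h2, add_zero]
          refine Finset.sum_eq_zero fun j _ => ?_
          rw [if_neg (show ¬ G.Adj (s, some i) (t, some j) from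
            fun h => h.elim h1 (fun h => h2 (h3.mp h))), zero_mul]
    simp only [this, Finset.sum_add_distrib, Finset.sum_ite_eq', Finset.mem_univ, if_true]

/-- what an eigenvector for an eigenvalue at least `2` looks like -/
lemma eigvec (x : Vt → ℝ) (μ : ℝ) (hμ : 2 ≤ μ) (h : G.adjMatrix ℝ *ᵥ x = μ • x) :
    (μ = 2 ∧ x (2, none) = -x (0, none) ∧ x (3, none) = -x (1, none) ∧
      ∀ s i, x (s, some i) = x (s, none) / 2) ∨ x = 0 ∨ (2 < μ ∧ μ ^ 2 - 13 * μ + 6 = 0) := by
  have hμ0 : μ ≠ 0 := by linarith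
  have ha : ∀ s, x (s + 2, none) + ∑ i, x (s, some i) = μ * x (s, none) := by
    intro s; rw [← mulVec_a, h]; rfl
  have hb : ∀ s i, x (s, none) + (∑ j, x (s + 1, some j) + ∑ j, x (s + 3, some j))
      = μ * x (s, some i) := by
    intro s i; rw [← mulVec_b x s i, h]; rfl
  set a : Fin 4 → ℝ := fun s => x (s, none) with hadef
  set B : Fin 4 → ℝ := fun s => ∑ i, x (s, some i) with hBdef
  have hB : ∀ s, μ * B s = 6 * (a s + (B (s + 1) + B (s + 3))) := by
    intro s
    have h1 : μ * B s = ∑ i, μ * x (s, some i) := by rw [hBdef]; simp only [Finset.mul_sum]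
    rw [h1, ← Finset.sum_congr rfl fun i _ => hb s i]
    simp [hadef, hBdef]
    ring
  have hb' : ∀ s i, μ * x (s, some i) = a s + (B (s + 1) + B (s + 3)) := fun s i => (hb s i).symm
  have a0 : a 2 + B 0 = μ * a 0 := ha 0
  have a1 : a 3 + B 1 = μ * a 1 := ha 1
  have a2 : a 0 + B 2 = μ * a 2 := ha 2
  have a3 : a 1 + B 3 = μ * a 3 := ha 3
  have b0 : μ * B 0 = 6 * (a 0 + (B 1 + B 3)) := hB 0
  have b1 : μ * B 1 = 6 * (a 1 + (B 2 + B 0)) := hB 1
  have b2 : μ * B 2 = 6 * (a 2 + (B 3 + B 1)) := hB 2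
  have b3 : μ * B 3 = 6 * (a 3 + (B 0 + B 2)) := hB 3
  -- the mode of sign `(+, -, +, -)`
  have m2 : (μ ^ 2 + 11 * μ - 18) * (a 0 - a 1 + a 2 - a 3) = 0 := by
    linear_combination (-(μ + 12)) * (a0 - a1 + a2 - a3) + (b0 - b1 + b2 - b3)
  have z2 : a 0 - a 1 + a 2 - a 3 = 0 := by
    refine (mul_eq_zero.mp m2).resolve_left ?_
    nlinarith
  have zB2 : B 0 - B 1 + B 2 - B 3 = 0 := by
    linear_combination a0 - a1 + a2 - a3 + (μ - 1) * z2
  -- the odd modes
  have mo : (μ ^ 2 + μ - 6) * (a 0 - a 2) = 0 := by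
    linear_combination (-μ) * (a0 - a2) + (b0 - b2)
  have mo' : (μ ^ 2 + μ - 6) * (a 1 - a 3) = 0 := by
    linear_combination (-μ) * (a1 - a3) + (b1 - b3)
  -- the constant mode
  have m0 : (μ ^ 2 - 13 * μ + 6) * (a 0 + a 1 + a 2 + a 3) = 0 := by
    linear_combination (-(μ - 12)) * (a0 + a1 + a2 + a3) + (b0 + b1 + b2 + b3)
  rcases eq_or_lt_of_le hμ with h2 | h2
  · left
    subst h2
    have z0 : a 0 + a 1 + a 2 + a 3 = 0 := by linarith
    have zB0 : B 0 + B 1 + B 2 + B 3 = 0 := by linarith
    have e02 : a 2 = -a 0 := by linarith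
    have e13 : a 3 = -a 1 := by linarith
    have B02 : B 0 + B 2 = 0 := by linarith
    have B13 : B 1 + B 3 = 0 := by linarith
    refine ⟨rfl, e02, e13, ?_⟩
    intro s i
    have h3 := hb' s i
    have h4 : B (s + 1) + B (s + 3) = 0 := by
      fin_cases s
      · exact B13
      · change B 2 + B 0 = 0; linarith
      · change B 3 + B 1 = 0; linarith
      · change B 0 + B 2 = 0; linarith
    rw [h4, add_zero] at h3
    change x (s, some i) = a s / 2
    linarith
  · right
    by_cases hq : μ ^ 2 - 13 * μ + 6 = 0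
    · exact Or.inr ⟨h2, hq⟩
    · left
      have z0 := (mul_eq_zero.mp m0).resolve_left hq
      have hpos : μ ^ 2 + μ - 6 ≠ 0 := by nlinarith
      have zo := (mul_eq_zero.mp mo).resolve_left hpos
      have zo' := (mul_eq_zero.mp mo').resolve_left hpos
      have c0 : a 0 = 0 := by linarith
      have c1 : a 1 = 0 := by linarith
      have c2 : a 2 = 0 := by linarith
      have c3 : a 3 = 0 := by linarith
      have hBz : ∀ s, B s = 0 := by
        intro s
        fin_cases s
        · change B 0 = 0; rw [c0, c2] at a0; linarith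
        · change B 1 = 0; rw [c1, c3] at a1; linarith
        · change B 2 = 0; rw [c0, c2] at a2; linarith
        · change B 3 = 0; rw [c1, c3] at a3; linarith
      have haz : ∀ s, a s = 0 := by
        intro s
        fin_cases s
        · exact c0
        · exact c1
        · exact c2
        · exact c3
      ext ⟨s, y⟩
      rcases y with _ | i
      · exact haz s
      · have h3 := hb' s i
        rw [haz, hBz, hBz] at h3
        simp only [add_zero] at h3
        exact (mul_eq_zero.mp h3).resolve_left hμ0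

/-- an eigenvector for the eigenvalue `2`, with prescribed values at `a_0` and `a_1` -/
noncomputable def X (p q : ℝ) : Vt → ℝ := fun y =>
  (match y.2 with | none => 1 | some _ => 1 / 2) *
    (if y.1 = 0 then p else if y.1 = 1 then q else if y.1 = 2 then -p else -q)

lemma X_eig (p q : ℝ) : G.adjMatrix ℝ *ᵥ X p q = (2 : ℝ) • X p q := by
  ext ⟨s, y⟩
  rcases y with _ | i
  · rw [mulVec_a]
    fin_cases s <;> simp [X] <;> ring
  · rw [mulVec_b]
    fin_cases s <;> simp [X] <;> ring

lemma X_mem (p q : ℝ) : X p q ∈ Eig (G.adjMatrix ℝ) 2 := by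
  rw [Eig, LinearMap.mem_ker, LinearMap.sub_apply, LinearMap.smul_apply, Matrix.toLin'_apply,
    X_eig, LinearMap.id_apply, sub_self]

lemma mem_eig {x : Vt → ℝ} (h : x ∈ Eig (G.adjMatrix ℝ) 2) : G.adjMatrix ℝ *ᵥ x = (2 : ℝ) • x := by
  rw [Eig, LinearMap.mem_ker, LinearMap.sub_apply, LinearMap.smul_apply, Matrix.toLin'_apply,
    LinearMap.id_apply, sub_eq_zero] at h
  exact h

lemma second : IsSecond (G.adjMatrix ℝ) 2 := by
  have hs : (12 : ℝ) ≤ Real.sqrt 145 := by apply Real.le_sqrt_of_sq_le; norm_num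
  have hs2 : Real.sqrt 145 ^ 2 = 145 := Real.sq_sqrt (by norm_num)
  refine ⟨⟨X 1 0, ?_, X_eig 1 0⟩, (13 + Real.sqrt 145) / 2, ?_, by linarith, ?_⟩
  · intro h
    have := congrFun h (0, none)
    simp [X] at this
  · refine ⟨fun y => match y.2 with | none => 6 | some _ => (13 + Real.sqrt 145) / 2 - 1, ?_, ?_⟩
    · intro h
      have := congrFun h (0, none)
      simp at this
    · ext ⟨s, y⟩
      rcases y with _ | i
      · rw [mulVec_a]
        simp
        ring
      · rw [mulVec_b]
        simp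
        nlinarith
  · rintro μ ⟨x, hx, h⟩
    by_cases hμ : 2 < μ
    · rcases eigvec x μ hμ.le h with h1 | h1 | h1
      · exact absurd h1.1 hμ.ne'
      · exact absurd h1 hx
      · left
        have h2 : (μ - (13 + Real.sqrt 145) / 2) * (μ - (13 - Real.sqrt 145) / 2) = 0 := by
          nlinarith [h1.2]
        rcases mul_eq_zero.mp h2 with h3 | h3
        · linarith
        · exfalso; linarith
    · right; linarith

/-- the functional of a coordinate vector: it reads off the values of an eigenvector -/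
lemma functional {d : ℕ} (u : Module.Basis (Fin d) ℝ (Eig (G.adjMatrix ℝ) 2)) (x : Vt → ℝ)
    (hx : x ∈ Eig (G.adjMatrix ℝ) 2) :
    ∃ f : (Fin d → ℝ) →ₗ[ℝ] ℝ, ∀ i, f (row u i) = x i := by
  refine ⟨∑ k, (u.repr ⟨x, hx⟩ k) • LinearMap.proj k, fun i => ?_⟩
  have h := u.sum_repr ⟨x, hx⟩
  have h2 := congrArg (fun z : Eig (G.adjMatrix ℝ) 2 => (z : Vt → ℝ) i) h
  simp only [Submodule.coe_sum, Submodule.coe_smul, Finset.sum_apply, Pi.smul_apply,
    smul_eq_mul] at h2
  simp only [LinearMap.sum_apply, LinearMap.smul_apply, LinearMap.proj_apply, smul_eq_mul, row]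
  exact h2

/-- **A graph edge `a_0 a_2` whose end points are distinct vertices of the second eigenpolytope but
which is not an edge of the eigenpolytope.** -/
theorem result : ∃ (V : Type) (_ : Fintype V) (_ : DecidableEq V) (G : SimpleGraph V)
    (_ : DecidableRel G.Adj) (i j : V) (θ : ℝ), G.Adj i j ∧ IsSecond (G.adjMatrix ℝ) θ ∧
    (∃ d : ℕ, Nonempty (Module.Basis (Fin d) ℝ (Eig (G.adjMatrix ℝ) θ))) ∧
    ∀ (d : ℕ) (u : Module.Basis (Fin d) ℝ (Eig (G.adjMatrix ℝ) θ)),
      row u i ≠ row u j ∧ row u i ∈ (eigenpolytope u).extremePoints ℝ ∧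
      row u j ∈ (eigenpolytope u).extremePoints ℝ ∧
      ¬ IsExtreme ℝ (eigenpolytope u) (segment ℝ (row u i) (row u j)) := by
  refine ⟨Vt, inferInstance, inferInstance, G, inferInstance, (0, none), (2, none), 2, rfl,
    second, ⟨_, ⟨Module.finBasis ℝ _⟩⟩, ?_⟩
  intro d u
  obtain ⟨f, hf⟩ := functional u (X 1 0) (X_mem 1 0)
  obtain ⟨g, hg⟩ := functional u (X 0 1) (X_mem 0 1)
  have hrel : row u (2, none) = -row u (0, none) := by
    ext k
    rcases eigvec (u k : Vt → ℝ) 2 le_rfl (mem_eig (u k).2) with h | h | h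
    · exact h.2.1
    · simp [row, h]
    · exact absurd h.1 (lt_irrefl _)
  have hrel' : row u (3, none) = -row u (1, none) := by
    ext k
    rcases eigvec (u k : Vt → ℝ) 2 le_rfl (mem_eig (u k).2) with h | h | h
    · exact h.2.2.1
    · simp [row, h]
    · exact absurd h.1 (lt_irrefl _)
  have hXle : ∀ i : Vt, i ≠ (0, none) → X 1 0 i ≤ 1 / 2 := by
    rintro ⟨s, y⟩ hi
    rcases y with _ | l
    · fin_cases s
      · exact absurd rfl hi
      all_goals (simp [X]; try norm_num)
    · fin_cases s <;> (simp [X]; try norm_num)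
  have hXge : ∀ i : Vt, i ≠ (2, none) → -X 1 0 i ≤ 1 / 2 := by
    rintro ⟨s, y⟩ hi
    rcases y with _ | l
    · fin_cases s
      · simp [X]; norm_num
      · simp [X]
      · exact absurd rfl hi
      · simp [X]
    · fin_cases s <;> (simp [X]; try norm_num)
  have hX0 : X 1 0 (0, none) = 1 := by simp [X]
  have hX2 : X 1 0 (2, none) = -1 := by simp [X]
  refine ⟨?_, ?_, ?_, ?_⟩
  · intro h
    have h1 := hf (0, none)
    have h2 := hf (2, none)
    rw [← h, h1, hX0, hX2] at h2
    norm_num at h2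
  · refine extreme_of_functional (row u) (0, none) (1, none) (by decide) f (1 / 2) ?_ ?_
    · intro i hi
      rw [hf]
      exact hXle i hi
    · rw [hf, hX0]; norm_num
  · refine extreme_of_functional (row u) (2, none) (1, none) (by decide) (-f) (1 / 2) ?_ ?_
    · intro i hi
      rw [LinearMap.neg_apply, hf]
      exact hXge i hi
    · rw [LinearMap.neg_apply, hf, hX2]; norm_num
  · intro hE
    have h0 : (0 : Fin d → ℝ) ∈ segment ℝ (row u (0, none)) (row u (2, none)) := by
      refine ⟨1 / 2, 1 / 2, by norm_num, by norm_num, by norm_num, ?_⟩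
      rw [hrel]; simp
    have h1 : (0 : Fin d → ℝ) ∈ openSegment ℝ (row u (1, none)) (row u (3, none)) := by
      refine ⟨1 / 2, 1 / 2, by norm_num, by norm_num, by norm_num, ?_⟩
      rw [hrel']; simp
    have h2 := hE.left_mem_of_mem_openSegment (subset_convexHull ℝ _ ⟨(1, none), rfl⟩)
      (subset_convexHull ℝ _ ⟨(3, none), rfl⟩) h0 h1
    obtain ⟨a, b, -, -, -, h3⟩ := h2
    have h4 := congrArg g h3
    rw [hrel, map_add, map_smul, map_smul, map_neg, hg, hg] at h4
    simp [X] at h4

end Pool.Agent.Results.MP_0d5a8e_co.SquareDiagonal
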